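import Mathlib

/-! Definitions used in the statement for MP_a0be58_an. -/

open MeasureTheory Filter Topology
open scoped ENNReal ComplexConjugate

namespace Pool.Agent.MP_a0be58_an

/-- The free abelian group on countably many generators. -/
abbrev Zw : Type := ℕ →₀ ℤ

/-- Folner sequences of finite nonempty subsets. -/
def IsFolner (Φ : ℕ → Finset Zw) : Prop :=
  (∀ n, (Φ n).Nonempty) ∧
    ∀ γ : Zw, Tendsto
      (fun n => ((symmDiff ((Φ n).image (fun x => γ + x)) (Φ n)).card : ℝ) / ((Φ n).card : ℝ))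
      atTop (𝓝 0)

/-- `ghkPow μ Φ k f` is the `2^(k+1)`-th power of the Gowers-Host-Kra seminorm `U^(k+1)` of `f`
on an ergodic system, by the usual recursion along the Folner sequence `Φ`
(the limit, which is known to exist, is written as a lower limit). -/
noncomputable def ghkPow {X : Type} [MeasurableSpace X] [AddAction Zw X] (μ : Measure X)
    (Φ : ℕ → Finset Zw) : ℕ → (X → ℂ) → ℝ≥0∞
  | 0, f => ‖∫ x, f x ∂μ‖ₑ ^ 2
  | k + 1, f => liminf (fun n =>
      (∑ γ ∈ Φ n, ghkPow μ Φ k (fun x => f (γ +ᵥ x) * conj (f x))) / ((Φ n).card : ℝ≥0∞)) atTop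

/-- The system has order `k`: the seminorm `U^(k+1)` is a norm on `L^∞`. -/
def IsOfOrder {X : Type} [MeasurableSpace X] [AddAction Zw X] (μ : Measure X) (k : ℕ) : Prop :=
  ∀ Φ : ℕ → Finset Zw, IsFolner Φ →
    ∀ f : X → ℂ, MemLp f ∞ μ → ghkPow μ Φ k f = 0 → f =ᵐ[μ] 0

/-- A translational system `G / Λ` of degree at most `d`. -/
structure TranslSystem (d : ℕ) where
  G : Type
  [grp : Group G]
  [top : TopologicalSpace G]
  [topGrp : IsTopologicalGroup G]
  [polish : PolishSpace G]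
  F : ℕ → Subgroup G
  F_closed : ∀ i, IsClosed (F i : Set G)
  F_zero : F 0 = ⊤
  F_one : F 1 = ⊤
  F_anti : Antitone F
  F_last : F (d + 1) = ⊥
  F_comm : ∀ i j, ⁅F i, F j⁆ ≤ F (i + j)
  Λ : Subgroup G
  Λ_closed : IsClosed (Λ : Set G)
  cocompact : CompactSpace (G ⧸ Λ)
  [ms : MeasurableSpace (G ⧸ Λ)]
  [borel : BorelSpace (G ⧸ Λ)]
  ν : Measure (G ⧸ Λ)
  prob : IsProbabilityMeasure ν
  inv : SMulInvariantMeasure G (G ⧸ Λ) ν
  φ : Multiplicative Zw →* G

attribute [instance] TranslSystem.grp TranslSystem.top TranslSystem.topGrp TranslSystem.polish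
  TranslSystem.ms TranslSystem.borel

/-- `π` is a factor map from `(X, μ)` onto the translational system `S`. -/
def IsFactorMap {X : Type} [MeasurableSpace X] [AddAction Zw X] (μ : Measure X) {d : ℕ}
    (S : TranslSystem d) (π : X → S.G ⧸ S.Λ) : Prop :=
  MeasurePreserving π μ S.ν ∧
    ∀ γ : Zw, ∀ᵐ x ∂μ, π (γ +ᵥ x) = S.φ (Multiplicative.ofAdd γ) • π x

/-- `(X, μ)` is an inverse limit of a sequence of translational systems, the `n`-th one of degree
at most `d n`: the factors increase modulo null sets and generate modulo null sets. -/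
def IsInvLimit {X : Type} [MeasurableSpace X] [AddAction Zw X] (μ : Measure X)
    (d : ℕ → ℕ) : Prop :=
  ∃ (S : ∀ n, TranslSystem (d n)) (π : ∀ n, X → (S n).G ⧸ (S n).Λ),
    (∀ n, IsFactorMap μ (S n) (π n)) ∧
    (∀ n, ∀ A : Set ((S n).G ⧸ (S n).Λ), MeasurableSet A →
      ∃ B : Set ((S (n + 1)).G ⧸ (S (n + 1)).Λ), MeasurableSet B ∧
        (π n ⁻¹' A) =ᵐ[μ] (π (n + 1) ⁻¹' B)) ∧
    (∀ s : Set X, MeasurableSet s →
      ∃ t : Set X, MeasurableSet[⨆ n, MeasurableSpace.comap (π n) (S n).ms] t ∧ s =ᵐ[μ] t)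

end Pool.Agent.MP_a0be58_an
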