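import Mathlib

/-! An open subgroup of a nilpotent group acting transitively on a compact space has only
finitely many ergodic pieces. -/

open MeasureTheory Filter Topology BoundedContinuousFunction Set
open scoped ENNReal

namespace Pool.Agent.MP_a0be58_an

set_option linter.unusedSectionVars false

variable {G Y : Type*} [Group G] [TopologicalSpace G] [IsTopologicalGroup G]
  [TopologicalSpace Y] [CompactSpace Y] [T2Space Y] [SecondCountableTopology Y]
  [MeasurableSpace Y] [BorelSpace Y] [MulAction G Y] [ContinuousSMul G Y]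

lemma continuous_integral_bcf (κ : Measure Y) [IsFiniteMeasure κ] :
    Continuous fun ψ : Y →ᵇ ℝ => ∫ y, ψ y ∂κ := by
  have : LipschitzWith (κ.real univ).toNNReal fun ψ : Y →ᵇ ℝ => ∫ y, ψ y ∂κ := by
    refine LipschitzWith.of_dist_le_mul fun a b => ?_
    rw [dist_eq_norm, ← integral_sub (a.integrable κ) (b.integrable κ), dist_eq_norm]
    have := (a - b).norm_integral_le_mul_norm κ
    rw [Real.coe_toNNReal _ measureReal_nonneg]
    simpa using this
  exact this.continuous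

/-- Translate of a bounded continuous function. -/
def trB (g : G) (ψ : Y →ᵇ ℝ) : Y →ᵇ ℝ :=
  ψ.compContinuous ⟨fun y => g • y, continuous_const_smul g⟩

@[simp] lemma trB_apply (g : G) (ψ : Y →ᵇ ℝ) (y : Y) : trB g ψ y = ψ (g • y) := rfl

lemma integral_trB {κ : Measure Y} {g : G} (h : MeasurePreserving (fun y => g • y) κ κ)
    (ψ : Y →ᵇ ℝ) : ∫ y, trB g ψ y ∂κ = ∫ y, ψ y ∂κ := by
  have := h.integral_comp (Homeomorph.smul g).measurableEmbedding ψ
  simpa using this

lemma average_step (hopen : ∀ y : Y, IsOpenMap fun g : G => g • y)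
    (ν : Measure Y) [IsFiniteMeasure ν] [ν.IsOpenPosMeasure] [SMulInvariantMeasure G Y ν]
    (H : Subgroup G) (hH : IsOpen (H : Set G)) (N N' : Set G)
    (hN : ∀ z ∈ N, z ∈ H) (hc : ∀ z ∈ N, ∀ h ∈ H, z * h * z⁻¹ * h⁻¹ ∈ N')
    (hn : ∀ z ∈ N, ∀ n ∈ N', z * n * z⁻¹ ∈ N')
    (φ : Y →ᵇ ℝ) (hφ : ∀ n ∈ N', ∀ y, φ (n • y) = φ y) :
    ∃ ψ : Y →ᵇ ℝ, (∀ n ∈ N, ∀ y, ψ (n • y) = ψ y) ∧
      ∀ κ : Measure Y, IsFiniteMeasure κ →
        (∀ h ∈ H, MeasurePreserving (fun y => h • y) κ κ) → ∫ y, ψ y ∂κ = ∫ y, φ y ∂κ := by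
  let Φ : C(G × Y, ℝ) := ⟨fun p => φ (p.1 • p.2), φ.continuous.comp continuous_smul⟩
  let ω : G → ℝ := fun h => ‖Φ.curry h - Φ.curry 1‖
  have hωc : Continuous ω := (Φ.curry.continuous.sub continuous_const).norm
  have hω1 : ω 1 = 0 := by simp [ω]
  have hωφ : ∀ h y, |φ (h • y) - φ y| ≤ ω h := by
    intro h y
    have := (Φ.curry h - Φ.curry 1).norm_coe_le_norm y
    simpa [Φ] using this
  let K : Set (Y →ᵇ ℝ) := {ψ | (∀ y, |ψ y| ≤ ‖φ‖) ∧
    (∀ h ∈ H, ∀ y, |ψ (h • y) - ψ y| ≤ ω h) ∧ (∀ n ∈ N', ∀ y, ψ (n • y) = ψ y) ∧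
    ∀ κ : Measure Y, IsFiniteMeasure κ →
        (∀ h ∈ H, MeasurePreserving (fun y => h • y) κ κ) → ∫ y, ψ y ∂κ = ∫ y, φ y ∂κ}
  have hev : ∀ y : Y, Continuous fun ψ : Y →ᵇ ℝ => ψ y := fun y => continuous_eval_const y
  have hKc : IsClosed K := by
    simp only [K, ofPred_and, ofPred_forall]
    refine (isClosed_iInter fun y => isClosed_le (hev y).abs continuous_const).inter
      ((isClosed_iInter fun h => isClosed_iInter fun _ => isClosed_iInter fun y =>
        isClosed_le ((hev _).sub (hev _)).abs continuous_const).inter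
      ((isClosed_iInter fun h => isClosed_iInter fun _ => isClosed_iInter fun y =>
        isClosed_eq (hev _) (hev _)).inter
      (isClosed_iInter fun κ => isClosed_iInter fun hκ => isClosed_iInter fun _ =>
        isClosed_eq (continuous_integral_bcf κ) continuous_const)))
  have hφK : φ ∈ K := ⟨fun y => φ.norm_coe_le_norm y, fun h _ y => hωφ h y, hφ, fun _ _ _ => rfl⟩
  have hEq : Equicontinuous ((↑) : K → Y → ℝ) := by
    intro y₀
    rw [Metric.equicontinuousAt_iff_right]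
    intro ε hε
    have hV : (H : Set G) ∩ ω ⁻¹' (Iio ε) ∈ 𝓝 (1 : G) := by
      refine inter_mem (hH.mem_nhds H.one_mem) (hωc.continuousAt.preimage_mem_nhds ?_)
      rw [hω1]; exact Iio_mem_nhds hε
    have := (hopen y₀).image_mem_nhds hV
    simp only [one_smul] at this
    filter_upwards [this] with y hy
    rintro ⟨ψ, hψ⟩
    obtain ⟨h, ⟨hh, hh'⟩, rfl⟩ := hy
    rw [dist_comm, Real.dist_eq]
    exact (hψ.2.1 h hh y₀).trans_lt hh'
  have hK : IsCompact K := arzela_ascoli₂ (Icc (-‖φ‖) ‖φ‖) isCompact_Icc K hKc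
    (fun f x hf => abs_le.1 (hf.1 x)) hEq
  let E : (Y →ᵇ ℝ) → ℝ := fun ψ => ∫ y, (ψ * ψ) y ∂ν
  have hE : Continuous E := (continuous_integral_bcf ν).comp (continuous_id.mul continuous_id)
  obtain ⟨ψ, hψ, hmin⟩ := hK.exists_isMinOn ⟨φ, hφK⟩ hE.continuousOn
  refine ⟨ψ, fun z hz => ?_, hψ.2.2.2⟩
  have hzK : trB z ψ ∈ K := by
    refine ⟨fun y => hψ.1 _, fun h hh y => ?_, fun n hn' y => ?_, fun κ hκ hκ' => ?_⟩
    · have e : z • h • y = (z * h * z⁻¹ * h⁻¹) • h • z • y := by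
        simp only [← mul_smul]; congr 1; group
      simp only [trB_apply]
      rw [e, hψ.2.2.1 _ (hc z hz h hh)]
      exact hψ.2.1 h hh _
    · have e : z • n • y = (z * n * z⁻¹) • z • y := by
        simp only [← mul_smul]; congr 1; group
      simp only [trB_apply]
      rw [e, hψ.2.2.1 _ (hn z hz n hn')]
    · rw [integral_trB (hκ' z (hN z hz))]; exact hψ.2.2.2 κ hκ hκ'
  let m : Y →ᵇ ℝ := (1 / 2 : ℝ) • (ψ + trB z ψ)
  have hm : ∀ y, m y = (ψ y + trB z ψ y) / 2 := fun y => by simp [m]; ring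
  have hmK : m ∈ K := by
    refine ⟨fun y => ?_, fun h hh y => ?_, fun n hn' y => ?_, fun κ hκ hκ' => ?_⟩
    · have h1 := abs_le.1 (hψ.1 y)
      have h2 := abs_le.1 (hzK.1 y)
      rw [hm, abs_le]; constructor <;> linarith [h1.1, h1.2, h2.1, h2.2]
    · have h1 := abs_le.1 (hψ.2.1 h hh y)
      have h2 := abs_le.1 (hzK.2.1 h hh y)
      rw [hm, hm, abs_le]; constructor <;> linarith [h1.1, h1.2, h2.1, h2.2]
    · rw [hm, hm, hψ.2.2.1 n hn', hzK.2.2.1 n hn']
    · simp_rw [hm]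
      rw [integral_div, integral_add (ψ.integrable κ) ((trB z ψ).integrable κ),
        hψ.2.2.2 κ hκ hκ', hzK.2.2.2 κ hκ hκ']
      ring
  have hEz : E (trB z ψ) = E ψ := by
    have := integral_trB (measurePreserving_smul z ν) (ψ * ψ)
    simpa [E] using this
  let dd : Y →ᵇ ℝ := ψ - trB z ψ
  have hpar : ∫ y, (dd * dd) y ∂ν = 2 * E ψ + 2 * E (trB z ψ) - 4 * E m := by
    simp only [E]
    rw [← integral_const_mul, ← integral_const_mul, ← integral_const_mul, ← integral_add,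
      ← integral_sub]
    · refine integral_congr_ae (Eventually.of_forall fun y => ?_)
      simp only [dd, BoundedContinuousFunction.mul_apply, BoundedContinuousFunction.sub_apply, hm]
      ring
    · exact (((ψ * ψ).integrable ν).const_mul 2).add
        (((trB z ψ * trB z ψ).integrable ν).const_mul 2)
    · exact ((m * m).integrable ν).const_mul 4
    · exact ((ψ * ψ).integrable ν).const_mul 2
    · exact ((trB z ψ * trB z ψ).integrable ν).const_mul 2
  have hle : E ψ ≤ E m := hmin hmK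
  have hnn : 0 ≤ fun y => (dd * dd) y := fun y => by
    simp only [BoundedContinuousFunction.mul_apply]; exact mul_self_nonneg _
  have h0 : ∫ y, (dd * dd) y ∂ν = 0 := by
    refine le_antisymm (by rw [hpar, hEz]; linarith) (integral_nonneg hnn)
  rw [integral_eq_zero_iff_of_nonneg hnn ((dd * dd).integrable ν)] at h0
  have h1 := Measure.eq_of_ae_eq h0 (dd * dd).continuous continuous_const
  intro y
  have h2 := congrFun h1 y
  simp only [dd, BoundedContinuousFunction.mul_apply, BoundedContinuousFunction.sub_apply,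
    trB_apply, Pi.zero_apply, mul_self_eq_zero] at h2
  linarith

lemma average_all (hopen : ∀ y : Y, IsOpenMap fun g : G => g • y)
    (ν : Measure Y) [IsFiniteMeasure ν] [ν.IsOpenPosMeasure] [SMulInvariantMeasure G Y ν]
    (H : Subgroup G) (hH : IsOpen (H : Set G)) (F : ℕ → Subgroup G) {k : ℕ}
    (hone : F 1 = ⊤) (hanti : Antitone F) (hlast : F (k + 1) = ⊥)
    (hcomm : ∀ i j, ⁅F i, F j⁆ ≤ F (i + j)) (φ : Y →ᵇ ℝ) :
    ∃ ψ : Y →ᵇ ℝ, (∀ n ∈ H, ∀ y, ψ (n • y) = ψ y) ∧
      ∀ κ : Measure Y, IsFiniteMeasure κ →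
        (∀ h ∈ H, MeasurePreserving (fun y => h • y) κ κ) → ∫ y, ψ y ∂κ = ∫ y, φ y ∂κ := by
  have hFc' : ∀ a g n, g ∈ F a → g * n * g⁻¹ * n⁻¹ ∈ F (a + 1) := by
    intro a g n hn
    have : g * n * g⁻¹ * n⁻¹ ∈ ⁅F a, F 1⁆ :=
      Subgroup.commutator_mem_commutator hn (show n ∈ F 1 by rw [hone]; trivial)
    exact hcomm a 1 this
  have key : ∀ t j, j + t = k + 1 → ∃ ψ : Y →ᵇ ℝ, (∀ n ∈ (H : Set G) ∩ F j, ∀ y, ψ (n • y) = ψ y) ∧
      ∀ κ : Measure Y, IsFiniteMeasure κ →
        (∀ h ∈ H, MeasurePreserving (fun y => h • y) κ κ) → ∫ y, ψ y ∂κ = ∫ y, φ y ∂κ := by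
    intro t
    induction t with
    | zero =>
      intro j hj
      refine ⟨φ, fun n hn y => ?_, fun _ _ _ => rfl⟩
      have h2 : n ∈ F j := hn.2
      rw [show j = k + 1 by omega, hlast, Subgroup.mem_bot] at h2
      rw [h2, one_smul]
    | succ t ih =>
      intro j hj
      obtain ⟨ψ, h1, h2⟩ := ih (j + 1) (by omega)
      obtain ⟨ψ', h3, h4⟩ := average_step hopen ν H hH ((H : Set G) ∩ F j)
        ((H : Set G) ∩ F (j + 1)) (fun z hz => hz.1)
        (fun z hz h hh => ⟨H.mul_mem (H.mul_mem (H.mul_mem hz.1 hh) (H.inv_mem hz.1))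
          (H.inv_mem hh), hFc' j z h hz.2⟩)
        (fun z hz n hn => ⟨H.mul_mem (H.mul_mem hz.1 hn.1) (H.inv_mem hz.1), by
          have := (F (j + 1)).mul_mem (hFc' j z n hz.2) hn.2
          simpa using this⟩) ψ h1
      exact ⟨ψ', h3, fun κ hκ hκ' => (h4 κ hκ hκ').trans (h2 κ hκ hκ')⟩
  obtain ⟨ψ, h1, h2⟩ := key k 1 (by omega)
  exact ⟨ψ, fun n hn => h1 n ⟨hn, by rw [hone]; trivial⟩, h2⟩

theorem exists_delta (hopen : ∀ y : Y, IsOpenMap fun g : G => g • y)
    [MulAction.IsPretransitive G Y]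
    (ν : Measure Y) [IsProbabilityMeasure ν] [SMulInvariantMeasure G Y ν]
    (H : Subgroup G) (hH : IsOpen (H : Set G)) (F : ℕ → Subgroup G) {k : ℕ}
    (hone : F 1 = ⊤) (hanti : Antitone F) (hlast : F (k + 1) = ⊥)
    (hcomm : ∀ i j, ⁅F i, F j⁆ ≤ F (i + j)) :
    ∃ δ : ℝ≥0∞, 0 < δ ∧ ∀ A : Set Y, MeasurableSet A →
      (∀ h ∈ H, (fun y => h • y) ⁻¹' A =ᵐ[ν] A) → ν A ≠ 0 → δ ≤ ν A := by
  have : ν.IsOpenPosMeasure := ⟨fun U hU hne =>
    (measure_isOpen_pos_of_smulInvariant_of_compact_ne_zero G isCompact_univ (by simp) hU hne).ne'⟩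
  let O : Y → Set Y := fun y => (fun g : G => g • y) '' (H : Set G)
  have hOo : ∀ y, IsOpen (O y) := fun y => hopen y _ hH
  have hOm : ∀ y, y ∈ O y := fun y => ⟨1, H.one_mem, one_smul _ _⟩
  have hOinv : ∀ y, ∀ h ∈ H, (fun y => h • y) ⁻¹' O y = O y := by
    intro y h hh
    ext x
    constructor
    · rintro ⟨g, hg, e⟩
      refine ⟨h⁻¹ * g, H.mul_mem (H.inv_mem hh) hg, ?_⟩
      simp only [mul_smul] at *
      rw [e, inv_smul_smul]
    · rintro ⟨g, hg, rfl⟩
      exact ⟨h * g, H.mul_mem hh hg, mul_smul _ _ _⟩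
  obtain ⟨t, ht⟩ := isCompact_univ.elim_finite_subcover O hOo
    (fun y _ => mem_iUnion.2 ⟨y, hOm y⟩)
  have hpos : ∀ y, 0 < ν (O y) := fun y => (hOo y).measure_pos ν ⟨y, hOm y⟩
  refine ⟨t.inf fun y => ν (O y), ?_, fun A hA hAinv hA0 => ?_⟩
  · rw [Finset.lt_inf_iff (by simp)]
    exact fun y _ => hpos y
  · obtain ⟨y, hy, hy0⟩ : ∃ y ∈ t, ν (A ∩ O y) ≠ 0 := by
      by_contra hcon
      push Not at hcon
      apply hA0
      refine measure_mono_null (t := ⋃ y ∈ t, A ∩ O y) (fun x hx => ?_) ?_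
      · have := ht (mem_univ x)
        simp only [mem_iUnion] at this ⊢
        obtain ⟨y, hy, hxy⟩ := this
        exact ⟨y, hy, hx, hxy⟩
      · exact (measure_biUnion_null_iff t.countable_toSet).2 hcon
    refine (Finset.inf_le hy).trans ?_
    have hres : ∀ B : Set Y, MeasurableSet B → (∀ h ∈ H, (fun y => h • y) ⁻¹' B =ᵐ[ν] B) →
        ∀ h ∈ H, MeasurePreserving (fun y => h • y) (ν.restrict B) (ν.restrict B) := by
      intro B hB hBi h hh
      have := (measurePreserving_smul h ν).restrict_preimage hB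
      rwa [Measure.restrict_congr_set (hBi h hh)] at this
    have hB1 := hres (A ∩ O y) (hA.inter (hOo y).measurableSet) (fun h hh => by
      rw [preimage_inter, hOinv y h hh]; exact (hAinv h hh).inter EventuallyEq.rfl)
    have hB2 := hres (O y) (hOo y).measurableSet (fun h hh => by rw [hOinv y h hh])
    have hmeq : (ν (O y)) • ν.restrict (A ∩ O y) = (ν (A ∩ O y)) • ν.restrict (O y) := by
      have : IsFiniteMeasure ((ν (O y)) • ν.restrict (A ∩ O y)) :=
        ⟨by simp [ENNReal.mul_lt_top, measure_lt_top]⟩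
      have : IsFiniteMeasure ((ν (A ∩ O y)) • ν.restrict (O y)) :=
        ⟨by simp [ENNReal.mul_lt_top, measure_lt_top]⟩
      refine ext_of_forall_integral_eq_of_IsFiniteMeasure fun φ => ?_
      obtain ⟨ψ, h1, h2⟩ := average_all hopen ν H hH F hone hanti hlast hcomm φ
      rw [integral_smul_measure, integral_smul_measure, ← h2 _ inferInstance hB1,
        ← h2 _ inferInstance hB2]
      have hc : ∀ x ∈ O y, ψ x = ψ y := by
        rintro _ ⟨g, hg, rfl⟩
        exact h1 g hg y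
      rw [setIntegral_congr_fun (g := fun _ => ψ y) (hA.inter (hOo y).measurableSet)
        (fun x hx => hc x hx.2), setIntegral_congr_fun (g := fun _ => ψ y) (hOo y).measurableSet
        (fun x hx => hc x hx), setIntegral_const, setIntegral_const]
      simp only [smul_eq_mul, Measure.real]
      ring
    have h3 := congrArg (fun κ : Measure Y => κ Aᶜ) hmeq
    simp only [Measure.smul_apply, smul_eq_mul, Measure.restrict_apply hA.compl] at h3
    rw [← inter_assoc, compl_inter_self, empty_inter, measure_empty, mul_zero] at h3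
    have h4 : ν (Aᶜ ∩ O y) = 0 := (mul_eq_zero.1 h3.symm).resolve_left hy0
    calc ν (O y) ≤ ν (A ∪ (Aᶜ ∩ O y)) := measure_mono fun x hx => by
            by_cases hxA : x ∈ A
            · exact Or.inl hxA
            · exact Or.inr ⟨hxA, hx⟩
      _ ≤ ν A + ν (Aᶜ ∩ O y) := measure_union_le _ _
      _ = ν A := by rw [h4, add_zero]

end Pool.Agent.MP_a0be58_an
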